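import Pool.Agent.Helper96.CT.Stmts2

/-!
# Sheet CT, row GR: greedy extension of an embedding of a subtree
-/

set_option autoImplicit false

namespace Pool.Agent.Helper12.CT

open SimpleGraph Pool.Agent.Helper96.CT

/-- in an acyclic graph a vertex outside a connected set has at most one neighbour in it -/
theorem gr_uniq {W : Type} (T : SimpleGraph W) (hT : T.IsAcyclic) (B : Set W)
    (hB : (T.induce B).Connected) (w u u' : W) (hw : w ∉ B) (hu : u ∈ B) (hu' : u' ∈ B)
    (h1 : T.Adj w u) (h2 : T.Adj w u') : u = u' := by
  by_contra hne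
  obtain ⟨p, hp⟩ := (hB.preconnected ⟨u', hu'⟩ ⟨u, hu⟩).exists_isPath
  have hinj : Function.Injective (Embedding.induce (G := T) B).toHom :=
    (Embedding.induce (G := T) B).injective
  let q : T.Walk u' u := p.map (Embedding.induce (G := T) B).toHom
  have hq : q.IsPath := Walk.map_isPath_of_injective hinj hp
  have hwq : w ∉ q.support := by
    intro h
    have h3 : w ∈ (p.map (Embedding.induce (G := T) B).toHom).support := h
    rw [Walk.support_map, List.mem_map] at h3
    obtain ⟨x, -, hx⟩ := h3
    exact hw (hx ▸ x.2)
  have hq2 : (Walk.cons h2 q).IsPath := hq.cons hwq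
  have hq1 : (Walk.cons h1 (Walk.nil : T.Walk u u)).IsPath := by
    refine Walk.IsPath.nil.cons ?_
    simp only [Walk.support_nil, List.mem_singleton]
    intro h
    exact hw (h ▸ hu)
  have h4 := isAcyclic_iff_path_unique.1 hT ⟨_, hq1⟩ ⟨_, hq2⟩
  have h5 := congrArg (fun r : T.Path w u => (r : T.Walk w u).length) h4
  simp only [Walk.length_cons, Walk.length_nil] at h5
  have h6 : q.length = 0 := by omega
  exact hne (Walk.eq_of_length_eq_zero h6).symm

theorem st_GR : ST_GR := by
  intro W V _ _ T F H D hT hH S A φ hSA hAD hSc hAc hφH hφi hφa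
  classical
  have key : ∀ (k : ℕ) (B : Finset W), S ⊆ B → B ⊆ A → (T.induce (B : Set W)).Connected →
      (∃ ψ : W → V, (∀ w ∈ S, ψ w = φ w) ∧ (∀ w ∈ B, ψ w ∈ H) ∧
        (∀ u ∈ B, ∀ w ∈ B, ψ u = ψ w → u = w) ∧
        ∀ u ∈ B, ∀ w ∈ B, T.Adj u w → F.Adj (ψ u) (ψ w)) →
      (A \ B).card = k →
      ∃ ψ : W → V, (∀ w ∈ S, ψ w = φ w) ∧ (∀ w ∈ A, ψ w ∈ H) ∧
        (∀ u ∈ A, ∀ w ∈ A, ψ u = ψ w → u = w) ∧
        ∀ u ∈ A, ∀ w ∈ A, T.Adj u w → F.Adj (ψ u) (ψ w) := by
    intro k
    induction k with
    | zero =>
      intro B hSB hBA hBc hψ hk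
      have h1 : A ⊆ B := by
        rw [Finset.card_eq_zero, Finset.sdiff_eq_empty_iff_subset] at hk
        exact hk
      have h2 : B = A := Finset.Subset.antisymm hBA h1
      subst h2
      exact hψ
    | succ k ih =>
      intro B hSB hBA hBc hψ hk
      obtain ⟨ψ, p1, p2, p3, p4⟩ := hψ
      -- an edge from B to A \ B
      have hne : (A \ B).Nonempty := by
        rw [← Finset.card_pos]
        omega
      obtain ⟨w0, hw0⟩ := hne
      rw [Finset.mem_sdiff] at hw0
      obtain ⟨⟨u0, hu0⟩⟩ := hBc.nonempty
      have hu0A : u0 ∈ (A : Set W) := hBA hu0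
      obtain ⟨p⟩ := hAc.preconnected ⟨u0, hu0A⟩ ⟨w0, hw0.1⟩
      obtain ⟨e, -, he1, he2⟩ := p.exists_boundary_dart
        {x : (A : Set W) | (x : W) ∈ B} hu0 hw0.2
      have hadj : T.Adj (e.fst : W) (e.snd : W) := e.adj
      obtain ⟨u, hu⟩ : ∃ u : W, u = (e.fst : W) := ⟨_, rfl⟩
      obtain ⟨w, hw⟩ : ∃ w : W, w = (e.snd : W) := ⟨_, rfl⟩
      have huB : u ∈ B := by
        rw [hu]
        exact he1
      have hwB : w ∉ B := by
        rw [hw]
        exact he2
      have hwA : w ∈ A := by
        rw [hw]
        exact e.snd.2
      rw [← hu, ← hw] at hadj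
      -- a free neighbour
      obtain ⟨I, hIH, hIa, hIc⟩ := hH (ψ u) (p2 u huB)
      have hcB : B.card ≤ D := by
        have h3 : B.card + (A \ B).card = A.card := by
          rw [add_comm]
          exact Finset.card_sdiff_add_card_eq_card hBA
        omega
      have hfree : ∃ x ∈ I, x ∉ B.image ψ := by
        by_contra hcon
        push Not at hcon
        have h3 : I ⊆ (B.image ψ).erase (ψ u) := by
          intro x hx
          rw [Finset.mem_erase]
          refine ⟨?_, hcon x hx⟩
          intro h
          exact F.irrefl (h ▸ hIa x hx)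
        have h4 := Finset.card_le_card h3
        rw [Finset.card_erase_of_mem (Finset.mem_image_of_mem ψ huB)] at h4
        have h5 : (B.image ψ).card ≤ B.card := Finset.card_image_le
        have h6 : 0 < B.card := Finset.card_pos.2 ⟨u, huB⟩
        omega
      obtain ⟨x, hxI, hxB⟩ := hfree
      have hx' : ∀ v ∈ B, ψ v ≠ x := by
        intro v hv h
        exact hxB (Finset.mem_image.2 ⟨v, hv, h⟩)
      have hneB : ∀ v ∈ B, v ≠ w := by
        intro v hv h
        exact hwB (h ▸ hv)
      refine ih (insert w B) (hSB.trans (Finset.subset_insert _ _))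
        (Finset.insert_subset hwA hBA) ?_ ⟨Function.update ψ w x, ?_, ?_, ?_, ?_⟩ ?_
      · have h3 : (T.induce ({w, u} : Set W)).Connected :=
          induce_pair_connected_of_adj hadj.symm
        have h4 := induce_union_connected h3.preconnected hBc.preconnected
          ⟨u, Or.inr rfl, huB⟩
        have h5 : ((insert w B : Finset W) : Set W) = ({w, u} : Set W) ∪ (B : Set W) := by
          ext v
          simp only [Finset.coe_insert, Set.mem_insert_iff, Set.mem_union,
            Set.mem_singleton_iff, Finset.mem_coe]
          constructor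
          · rintro (h | h)
            · exact Or.inl (Or.inl h)
            · exact Or.inr h
          · rintro ((h | h) | h)
            · exact Or.inl h
            · exact Or.inr (h ▸ huB)
            · exact Or.inr h
        rw [h5]
        exact h4
      · intro v hv
        rw [Function.update_of_ne (hneB v (hSB hv))]
        exact p1 v hv
      · intro v hv
        rcases Finset.mem_insert.1 hv with h | h
        · subst h
          rw [Function.update_self]
          exact hIH hxI
        · rw [Function.update_of_ne (hneB v h)]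
          exact p2 v h
      · intro v hv v' hv' h
        rcases Finset.mem_insert.1 hv with h1 | h1 <;> rcases Finset.mem_insert.1 hv' with h2 | h2
        · rw [h1, h2]
        · rw [h1, Function.update_self, Function.update_of_ne (hneB v' h2)] at h
          exact absurd h.symm (hx' v' h2)
        · rw [h2, Function.update_self, Function.update_of_ne (hneB v h1)] at h
          exact absurd h (hx' v h1)
        · rw [Function.update_of_ne (hneB v h1), Function.update_of_ne (hneB v' h2)] at h
          exact p3 v h1 v' h2 h
      · have hun : ∀ v ∈ B, T.Adj w v → v = u := fun v hv hvw =>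
          gr_uniq T hT (B : Set W) hBc w v u hwB hv huB hvw hadj.symm
        intro v hv v' hv' h
        rcases Finset.mem_insert.1 hv with h1 | h1 <;> rcases Finset.mem_insert.1 hv' with h2 | h2
        · rw [h1, h2] at h
          exact absurd h (T.irrefl)
        · rw [h1] at h
          rw [h1, Function.update_self, Function.update_of_ne (hneB v' h2), hun v' h2 h]
          exact (hIa x hxI).symm
        · rw [h2] at h
          rw [h2, Function.update_self, Function.update_of_ne (hneB v h1), hun v h1 h.symm]
          exact hIa x hxI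
        · rw [Function.update_of_ne (hneB v h1), Function.update_of_ne (hneB v' h2)]
          exact p4 v h1 v' h2 h
      · have h3 : A \ insert w B = (A \ B).erase w := by
          ext v
          simp only [Finset.mem_sdiff, Finset.mem_insert, Finset.mem_erase]
          tauto
        rw [h3, Finset.card_erase_of_mem (Finset.mem_sdiff.2 ⟨hwA, hwB⟩), hk]
        rfl
  exact key _ S (Finset.Subset.refl S) hSA hSc ⟨φ, fun _ _ => rfl, hφH, hφi, hφa⟩ rfl

end Pool.Agent.Helper12.CT
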